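import Pool.Agent.V5helper52.VM.Tor
import Pool.Agent.V5helper52.FB.Fam
import Pool.Agent.V5helper48.VM.LAGR
import Pool.Agent.V5helper76.VM.DGB
import Pool.Agent.V5helper61.VM.BLK

/-!
# Systems of equations with few terms over a base
-/

set_option autoImplicit false
set_option maxHeartbeats 400000

open CategoryTheory AlgebraicGeometry MvPolynomial Pool.Agent.Y116.UV Pool.Agent.V5helper52.SF
  Pool.Agent.V5helper52.TR Pool.Agent.V5helper52.FW Pool.Agent.V5helper52.PT Pool.Agent.Z125.UN
  Pool.Agent.V5helper52.FB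

namespace Pool.Agent.V5helper52.VM

/-- The equations `∑_{m ∈ S, p(m) = β} b(m)^{d(β) - i} c(m)^i a(m) x^m`, `0 ≤ i ≤ d(β)`. Here `S` is a finite
set of exponents, divided into blocks by `p`; the `d(β) + 1` equations of the block `β` are of Vandermonde
type. -/
def VanEqs {k : Type} [Field k] {E : Type} [CommRing E] [Algebra k E] {N : ℕ}
    (S : Finset (Fin N →₀ ℕ)) (p : (Fin N →₀ ℕ) → ℕ) (d : ℕ → ℕ) (b c : (Fin N →₀ ℕ) → k)
    (a : (Fin N →₀ ℕ) → E) : Set (MvPolynomial (Fin N) E) :=
  {f | ∃ β i : ℕ, i ≤ d β ∧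
    f = ∑ m ∈ S with p m = β, monomial m (algebraMap k E (b m ^ (d β - i) * c m ^ i) * a m)}

/-- The exponents of all monomials of the polynomials `F_1, …, F_r`. -/
def Exps {E : Type} [CommRing E] {N r : ℕ} (F : Fin r → MvPolynomial (Fin N) E) :
    Finset (Fin N →₀ ℕ) :=
  Finset.univ.biUnion fun i => (F i).support

/-- The polynomials `F_1, …, F_r` in `N` variables over the `k`-algebra `E` have few terms:

1. `dim E ≤ n`, and the ideal `(F_1, …, F_r)` is generated by polynomials of Vandermonde type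
   `∑_{m ∈ S, p(m) = β} b(m)^{d(β) - i} c(m)^i a(m) x^m`, `0 ≤ i ≤ d(β)`, where `S` is a finite set of affinely
   independent exponents, divided into blocks by `p`, with `b(m)`, `c(m)` in `k` and `a(m)` in `E` (for
   `d(β) = 0` the block is one polynomial with arbitrary coefficients `a(m)` in `E`, for `d(β) = 1` it consists
   of two polynomials);
2. or `E = k`, and together the `F_i` have at most `n + 3` monomials, and `r ≤ 2`;
3. or `E = k`, and the exponents of the monomials of all `F_i` are in an affine subspace of dimension at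
   most `n + 1`. -/
def HasFewTerms (k : Type) [Field k] (n : ℕ) {E : Type} [CommRing E] [Algebra k E] {N r : ℕ}
    (F : Fin r → MvPolynomial (Fin N) E) : Prop :=
  (ringKrullDim E ≤ n ∧ ∃ (S : Finset (Fin N →₀ ℕ)) (p : (Fin N →₀ ℕ) → ℕ) (d : ℕ → ℕ)
    (b c : (Fin N →₀ ℕ) → k) (a : (Fin N →₀ ℕ) → E),
      AffineIndependent ℚ (fun (m : S) (i : Fin N) => (m.1 i : ℚ)) ∧
      Ideal.span (Set.range F) = Ideal.span (VanEqs S p d b c a)) ∨
  (Function.Bijective (algebraMap k E) ∧ ((r ≤ 2 ∧ (Exps F).card ≤ n + 3) ∨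
    Module.finrank ℚ
      (vectorSpan ℚ (Set.range fun (m : Exps F) (i : Fin N) => (m.1 i : ℚ))) ≤ n + 1))

variable {k : Type} [Field k] {P : Sch k → Prop} (hP : Cls True P)

/-- the matrix with blocks of Vandermonde type -/
def bm {C : Type} (p : C → ℕ) (d : ℕ → ℕ) (b c : C → k) (i : Σ β : ℕ, Fin (d β + 1)) (m : C) : k :=
  if p m = i.1 then b m ^ (d i.1 - i.2) * c m ^ (i.2 : ℕ) else 0

include hP in
theorem good_bm {C : Type} (p : C → ℕ) (d : ℕ → ℕ) (b c : C → k) : Good P (bm p d b c) := by
  intro E hE τ _ ι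
  refine Pool.Agent.V5helper76.VM.t_DGB Pool.Agent.V5helper61.VM.t_BLK k P hP E hE _ τ _
    (fun x => p (ι x)) ?_ fun β => ?_
  · intro i j j' h1 h2
    have h3 : ∀ x, bm p d b c i (ι x) ≠ 0 → p (ι x) = i.1 := by
      intro x hx
      by_contra h
      exact hx (if_neg h)
    exact (h3 j h1).trans (h3 j' h2).symm
  · have h1 := p_homv hP Pool.Agent.V5helper55.PT.EXS.t_EXS Pool.Agent.V5helper48.VM.t_LAGR
      Pool.Agent.V5helper6.PT.t_CONE Pool.Agent.V5helper86.PT.t_MERGE hE (d β) _
      {j // p (ι j) = β} rfl (fun x => b (ι x.1)) (fun x => c (ι x.1))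
    have h2 : sysI E (fun i (j : {j // p (ι j) = β}) => bm p d b c i (ι j.1)) =
        sysI E (vd (d β) (fun x : {j // p (ι j) = β} => b (ι x.1)) (fun x => c (ι x.1))) := by
      refine sysI_eq _ _ (le_antisymm ?_ ?_)
      · rw [Submodule.span_le]
        rintro _ ⟨⟨β', i⟩, rfl⟩
        by_cases h : β' = β
        · subst h
          refine Submodule.subset_span ⟨i, ?_⟩
          funext j
          exact (if_pos j.2).symm
        · have h0 : (fun (j : {j // p (ι j) = β}) => bm p d b c ⟨β', i⟩ (ι j.1)) = 0 := by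
            funext j
            exact if_neg fun h' => h (h'.symm.trans j.2)
          change (fun (j : {j // p (ι j) = β}) => bm p d b c ⟨β', i⟩ (ι j.1)) ∈ Submodule.span k _
          rw [h0]
          exact Submodule.zero_mem _
      · rw [Submodule.span_le]
        rintro _ ⟨i, rfl⟩
        refine Submodule.subset_span ⟨⟨β, i⟩, ?_⟩
        funext j
        exact if_pos j.2
    rw [h2]
    exact h1

variable {n : ℕ}
  (hn : ∀ (A : Type) [CommRing A] [Algebra k A] [Algebra.FiniteType k A], ringKrullDim A ≤ n →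
    P (aff k A))

include hP hn in
/-- **Independent exponents, coefficients in a base.** -/
theorem p_baseg {σ : Type} [Fintype σ] [DecidableEq σ] {E : Type} [CommRing E] [Algebra k E]
    [Algebra.FiniteType k E] (hE : ringKrullDim E ≤ n) {κ : Type} (S : Finset (σ →₀ ℕ))
    (M : κ → (σ →₀ ℕ) → k) (a : (σ →₀ ℕ) → E)
    (hS : AffineIndependent ℚ (fun (m : S) (i : σ) => (m.1 i : ℚ))) (hgood : Good P M) :
    P (aff k (MvPolynomial σ E ⧸ Ideal.span (Set.range (fam S M a)))) := by
  classical
  change P (aff k (Tq (Ideal.span (Set.range (fam S M a)))))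
  apply noethT hP
  intro p hp
  let D := E ⧸ p
  have hD : IsDomain D := inferInstance
  let m : E →ₐ[k] D := Ideal.Quotient.mkₐ k p
  let S' : Finset (σ →₀ ℕ) := S.filter fun s => m (a s) ≠ 0
  let w : D := ∏ s ∈ S', m (a s)
  have hw : w ≠ 0 := Finset.prod_ne_zero_iff.mpr fun s hs => (Finset.mem_filter.mp hs).2
  refine ⟨w, hw, ?_⟩
  have := away_ft (k := k) w
  let L := Localization.Away w
  let g : E →ₐ[k] L := (IsScalarTower.toAlgHom k D L).comp m
  have hinj : Function.Injective (algebraMap D L) := IsLocalization.injective L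
    (powers_le_nonZeroDivisors_of_noZeroDivisors hw)
  have hg : ∀ s, g (a s) ≠ 0 ↔ m (a s) ≠ 0 := by
    intro s
    have h1 : g (a s) = algebraMap D L (m (a s)) := rfl
    rw [h1, Ne, Ne, map_eq_zero_iff _ hinj]
  have h1 : bc g (Ideal.span (Set.range (fam S M a))) =
      Ideal.span (Set.range (fam S' M fun s => g (a s))) := by
    rw [bc_fam, fam_filter S M fun s => g (a s)]
    have h2 : (S.filter fun s => g (a s) ≠ 0) = S' := Finset.filter_congr fun s _ => hg s
    rw [h2]
  change P (aff k (Tq (bc g (Ideal.span (Set.range (fam S M a))))))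
  rw [h1]
  have hS' : AffineIndependent ℚ (fun (m : S') (i : σ) => (m.1 i : ℚ)) :=
    hS.comp_embedding ⟨fun m : S' => (⟨m.1, Finset.filter_subset _ _ m.2⟩ : S), fun x y h =>
      Subtype.ext (congrArg (fun z : S => z.1) h)⟩
  refine p_units hP hn ((dim_away w).trans ((ringKrullDim_quotient_le p).trans hE)) S' M _
    (fun s hs => ?_) hS' ?_
  · have h3 : m (a s) ∣ w := Finset.dvd_prod_of_mem (fun s => m (a s)) hs
    exact isUnit_of_dvd_unit (map_dvd (algebraMap D L) h3)
      (IsLocalization.Away.algebraMap_isUnit w)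
  · refine p_gen hP S' _ M (fun l => ?_) hS' hgood
    rw [Pool.Agent.V5helper52.FB.fam]
    refine Finset.sum_congr rfl fun s _ => ?_
    rw [mul_one]
    rfl

variable {E : Type} [CommRing E] [Algebra k E] {N r : ℕ}

lemma van_range (S : Finset (Fin N →₀ ℕ)) (p : (Fin N →₀ ℕ) → ℕ) (d : ℕ → ℕ)
    (b c : (Fin N →₀ ℕ) → k) (a : (Fin N →₀ ℕ) → E) :
    VanEqs S p d b c a = Set.range (fam S (bm p d b c) a) := by
  classical
  have key : ∀ (β : ℕ) (i : Fin (d β + 1)), fam S (bm p d b c) a ⟨β, i⟩ =
      ∑ m ∈ S with p m = β,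
        monomial m (algebraMap k E (b m ^ (d β - i) * c m ^ (i : ℕ)) * a m) := by
    intro β i
    rw [Pool.Agent.V5helper52.FB.fam, Finset.sum_filter]
    refine Finset.sum_congr rfl fun m _ => ?_
    change monomial m (algebraMap k E (if p m = β then _ else 0) * a m) = _
    by_cases h : p m = β
    · rw [if_pos h, if_pos h]
    · rw [if_neg h, if_neg h, map_zero, zero_mul, monomial_zero]
  ext f
  constructor
  · rintro ⟨β, i, hi, rfl⟩
    exact ⟨⟨β, ⟨i, by omega⟩⟩, key β ⟨i, by omega⟩⟩
  · rintro ⟨⟨β, i⟩, rfl⟩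
    exact ⟨β, i, by have := i.2; omega, key β i⟩

variable [Algebra.FiniteType k E] (F : Fin r → MvPolynomial (Fin N) E) (hF : HasFewTerms k n F)

include hF in
omit [Algebra.FiniteType k E] in
lemma few_dim : ringKrullDim E ≤ n := by
  rcases hF with ⟨hE, _⟩ | ⟨hb, _⟩
  · exact hE
  · let e : k ≃+* E := RingEquiv.ofBijective (algebraMap k E) hb
    rw [← ringKrullDim_eq_of_ringEquiv e, ringKrullDim_eq_zero_of_field]
    exact_mod_cast Nat.zero_le n

include hP hn hF

/-- **Systems of polynomials with few terms.** -/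
theorem p_main : P (aff k (MvPolynomial (Fin N) E ⧸ Ideal.span (Set.range F))) := by
  classical
  rcases hF with ⟨hE, S, p, d, b, c, a, hS, h⟩ | ⟨hb, hF⟩
  · rw [h, van_range]
    exact p_baseg hP hn hE S _ a hS (good_bm hP p d b c)
  · let e : k ≃ₐ[k] E := AlgEquiv.ofBijective (Algebra.ofId k E) hb
    let e2 : MvPolynomial (Fin N) k ≃ₐ[k] MvPolynomial (Fin N) E := MvPolynomial.mapAlgEquiv (Fin N) e
    let G : Fin r → MvPolynomial (Fin N) k := fun i => e2.symm (F i)
    have hG : ∀ i, e2 (G i) = F i := fun i => e2.apply_symm_apply _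
    have hs : ∀ i, (G i).support = (F i).support := by
      intro i
      rw [← hG i]
      exact (support_map_of_injective (G i) e.injective).symm
    have hE : Exps G = Exps F := by
      rw [Exps, Exps]
      exact Finset.biUnion_congr rfl fun i _ => hs i
    have h1 : P (aff k (MvPolynomial (Fin N) k ⧸ Ideal.span (Set.range G))) := by
      refine Pool.Agent.V5helper52.PT.p_system hP hn G ?_
      rcases hF with ⟨hr, hF⟩ | hF
      · refine Or.inl ⟨hr, Or.inl ?_⟩
        rw [← hE] at hF
        exact hF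
      · refine Or.inr ?_
        rw [← hE] at hF
        exact hF
    refine iso_alg hP.toUni (Ideal.quotientEquivAlg _ _ e2 ?_) h1
    rw [Ideal.map_span, ← Set.range_comp]
    congr 2
    funext i
    exact (hG i).symm

/-- the ambient affine space -/
theorem p_space : P (aff k (MvPolynomial (Fin N) E)) :=
  p_poly hP.toBnd (Fin N) (hn E (few_dim F hF))

end Pool.Agent.V5helper52.VM
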