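import Pool.Agent.V5helper52.VM.Van

/-!
# Homogeneous systems of Vandermonde type
-/

set_option autoImplicit false
set_option maxHeartbeats 400000

open CategoryTheory AlgebraicGeometry MvPolynomial Pool.Agent.Y116.UV Pool.Agent.V5helper52.SF
  Pool.Agent.V5helper52.TR Pool.Agent.V5helper52.FW Pool.Agent.V5helper52.PT Pool.Agent.Z125.UN

namespace Pool.Agent.V5helper52.VM

variable {k : Type} [Field k]

lemma vd_prop {σ : Type} {d : ℕ} (b c : σ → k) {l j : σ} {μ : k} (hb : b l = μ * b j)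
    (hc : c l = μ * c j) (i : Fin (d + 1)) : vd d b c i l = μ ^ d * vd d b c i j := by
  have h1 : μ ^ d = μ ^ (d - i) * μ ^ (i : ℕ) := by
    rw [← pow_add]
    congr 1
    have := i.2
    omega
  rw [vd, vd, hb, hc, mul_pow, mul_pow, h1]
  ring

lemma prod_mem {σ : Type} [DecidableEq σ] (V : Submodule k (σ → k)) (f : σ → σ → k)
    (hf : ∀ l, f l ∈ V) (s : Finset σ) : ∏ l ∈ s, f l ∈ V ^ s.card := by
  induction s using Finset.induction_on with
  | empty =>
    rw [Finset.prod_empty, Finset.card_empty, pow_zero]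
    exact Submodule.one_le.mp le_rfl
  | insert a s ha ih =>
    rw [Finset.prod_insert ha, Finset.card_insert_of_notMem ha, pow_succ']
    exact Submodule.mul_mem_mul (hf a) ih

lemma single_mem {σ : Type} [Fintype σ] [DecidableEq σ] {d : ℕ} (b c : σ → k) (j0 : σ)
    (hnp : ∀ l, l ≠ j0 → ∀ lam : k, ¬ ∀ i, vd d b c i l = lam * vd d b c i j0)
    (h0 : ¬ (b j0 = 0 ∧ c j0 = 0)) (hcard : Fintype.card σ ≤ d + 1) :
    ∃ v : k, v ≠ 0 ∧ v • Pi.single j0 (1 : k) ∈ Submodule.span k (Set.range (vd d b c)) := by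
  have hb : b ∈ Submodule.span k ({b, c} : Set (σ → k)) := Submodule.subset_span (by simp)
  have hc : c ∈ Submodule.span k ({b, c} : Set (σ → k)) := Submodule.subset_span (by simp)
  let f : σ → σ → k := fun l => c l • b - b l • c
  have hf : ∀ l, f l ∈ Submodule.span k ({b, c} : Set (σ → k)) := fun l =>
    Submodule.sub_mem _ (Submodule.smul_mem _ _ hb) (Submodule.smul_mem _ _ hc)
  have h1 := prod_mem _ f hf (Finset.univ.erase j0)
  rw [Finset.card_erase_of_mem (Finset.mem_univ _), Finset.card_univ] at h1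
  obtain ⟨g, hg, hg0⟩ : ∃ g ∈ Submodule.span k ({b, c} : Set (σ → k)), g j0 ≠ 0 := by
    by_cases h : b j0 = 0
    · exact ⟨c, hc, fun h' => h0 ⟨h, h'⟩⟩
    · exact ⟨b, hb, h⟩
  have h2 : (∏ l ∈ Finset.univ.erase j0, f l) * g ^ (d - (Fintype.card σ - 1)) ∈
      Submodule.span k ({b, c} : Set (σ → k)) ^ d := by
    have h3 : d = (Fintype.card σ - 1) + (d - (Fintype.card σ - 1)) := by omega
    have h4 := Submodule.mul_mem_mul h1 (Submodule.pow_mem_pow _ hg (d - (Fintype.card σ - 1)))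
    rw [← pow_add, ← h3] at h4
    exact h4
  have hfl : ∀ l, l ≠ j0 → f l j0 ≠ 0 := by
    intro l hl h
    have h' : c l * b j0 = b l * c j0 := sub_eq_zero.mp h
    by_cases hb0 : b j0 = 0
    · have hc0 : c j0 ≠ 0 := fun h' => h0 ⟨hb0, h'⟩
      have hbl : b l = 0 := by
        rw [hb0, mul_zero] at h'
        exact (mul_eq_zero.mp h'.symm).resolve_right hc0
      refine hnp l hl _ (vd_prop b c (μ := c l / c j0) ?_ ?_)
      · rw [hbl, hb0, mul_zero]
      · rw [div_mul_cancel₀ _ hc0]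
    · refine hnp l hl _ (vd_prop b c (μ := b l / b j0) ?_ ?_)
      · rw [div_mul_cancel₀ _ hb0]
      · rw [div_mul_eq_mul_div, ← h', mul_div_cancel_right₀ _ hb0]
  refine ⟨((∏ l ∈ Finset.univ.erase j0, f l) * g ^ (d - (Fintype.card σ - 1))) j0, ?_, ?_⟩
  · rw [Pi.mul_apply, Finset.prod_apply, Pi.pow_apply]
    refine mul_ne_zero (Finset.prod_ne_zero_iff.mpr fun l hl => hfl l (Finset.mem_erase.mp hl).1)
      (pow_ne_zero _ hg0)
  · rw [vd_span]
    have h3 : ((∏ l ∈ Finset.univ.erase j0, f l) * g ^ (d - (Fintype.card σ - 1))) j0 •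
        Pi.single j0 (1 : k) = (∏ l ∈ Finset.univ.erase j0, f l) * g ^ (d - (Fintype.card σ - 1)) := by
      funext x
      by_cases hx : x = j0
      · subst hx
        rw [Pi.smul_apply, Pi.single_eq_same, smul_eq_mul, mul_one]
      · rw [Pi.smul_apply, Pi.single_eq_of_ne hx, smul_zero, Pi.mul_apply, Finset.prod_apply]
        rw [Finset.prod_eq_zero (Finset.mem_erase.mpr ⟨hx, Finset.mem_univ x⟩), zero_mul]
        change c x * b x - b x * c x = 0
        ring
    rw [h3]
    exact h2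

variable {P : Sch k → Prop} (hP : Cls True P)

include hP

/-- few variables -/
lemma small_v {E : ℕ} {σ : Type} [Fintype σ] [DecidableEq σ] {d : ℕ} (b c : σ → k) (j0 : σ)
    (hnp : ∀ l, l ≠ j0 → ∀ lam : k, ¬ ∀ i, vd d b c i l = lam * vd d b c i j0)
    (h0 : ¬ (b j0 = 0 ∧ c j0 = 0)) (hcard : Fintype.card σ ≤ d + 1) :
    St P (sysI E (vd d b c)) (∏ j, X j) := by
  obtain ⟨v, hv, hm⟩ := single_mem b c j0 hnp h0 hcard
  have h1 := ferm_mem (E := E) _ hm
  have h2 : Ferm E σ (v • Pi.single j0 (1 : k)) = C v * X j0 ^ E := by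
    rw [Ferm, Finset.sum_eq_single j0]
    · rw [Pi.smul_apply, Pi.single_eq_same, smul_eq_mul, mul_one]
    · intro x _ hx
      rw [Pi.smul_apply, Pi.single_eq_of_ne hx, smul_zero, C_0, zero_mul]
    · exact fun h => absurd (Finset.mem_univ _) h
  have h3 : IsUnit (C v : MvPolynomial σ k) := (isUnit_iff_ne_zero.mpr hv).map C
  rw [h2, Ideal.unit_mul_mem_iff_mem _ h3] at h1
  have h4 : (∏ j, X j : MvPolynomial σ k) ^ E ∈ sysI E (vd d b c) := by
    rw [← Finset.prod_pow]
    exact Ideal.mem_of_dvd _ (Finset.dvd_prod_of_mem (fun j => (X j : MvPolynomial σ k) ^ E)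
      (Finset.mem_univ j0)) h1
  have hft := ft_loc (R := k) (sysI E (vd d b c)) (∏ j, X j)
  refine hP.curve _ ?_
  have h5 : Subsingleton (Localization.Away (Ideal.Quotient.mk (sysI E (vd d b c)) (∏ j, X j))) := by
    have h6 := IsLocalization.Away.algebraMap_isUnit
      (S := Localization.Away (Ideal.Quotient.mk (sysI E (vd d b c)) (∏ j, X j)))
      (Ideal.Quotient.mk (sysI E (vd d b c)) (∏ j, X j))
    have h7 := h6.pow E
    rw [← map_pow, ← map_pow, Ideal.Quotient.eq_zero_iff_mem.mpr h4, map_zero,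
      isUnit_zero_iff] at h7
    exact subsingleton_of_zero_eq_one h7
  rw [ringKrullDim_eq_bot_of_subsingleton]
  exact bot_le

/-- the generic case -/
theorem gen_v (exs : S_EXS) (lagr : S_LAGR) (cone : S_CONE) {E : ℕ} (hE : 0 < E) {τ : Type}
    [Fintype τ] [DecidableEq τ] {d : ℕ} (b c : Option τ → k)
    (hnp : ∀ i j : Option τ, i ≠ j → ∀ lam : k, ¬ ∀ l, vd d b c l i = lam * vd d b c l j) {n : ℕ}
    (h00 : ¬ (b none = 0 ∧ c none = 0))
    (hcard : Fintype.card τ = n + (d + 1)) : St P (sysI E (vd d b c)) (∏ j, X j) := by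
  obtain ⟨b', c', hbc, hb0, hc0⟩ := exists_bc b c none h00
  have hV : Submodule.span k (Set.range (vd d b c)) =
      Submodule.span k (Set.range (vd d b' c')) := by
    rw [vd_span, vd_span, hbc]
  have hnp' : ∀ i j : Option τ, i ≠ j → ∀ lam : k,
      ¬ ∀ l, vd d b' c' l i = lam * vd d b' c' l j := by
    intro i j hij lam h
    refine hnp i j hij lam ?_
    rw [pr_iff, hV, ← pr_iff]
    exact h
  have hb : ∀ j, b' (some j) ≠ 0 := by
    intro j hj
    refine hnp' (some j) none (by simp) (c' (some j) ^ d / c' none ^ d) fun l => ?_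
    rw [vd, vd, hj, hb0]
    by_cases hl : (l : ℕ) = d
    · rw [hl, Nat.sub_self, pow_zero, one_mul, one_mul,
        div_mul_cancel₀ _ (pow_ne_zero _ hc0)]
    · have h1 : d - l ≠ 0 := by
        have := l.2
        omega
      rw [zero_pow h1, zero_mul, zero_mul, mul_zero]
  obtain ⟨s, hs'⟩ : ∃ s : k, s = -(c' none ^ d)⁻¹ := ⟨_, rfl⟩
  have hs : s ≠ 0 := by
    rw [hs']
    exact neg_ne_zero.mpr (inv_ne_zero (pow_ne_zero _ hc0))
  obtain ⟨q, hq⟩ : ∃ q : τ → k, ∀ j, c' (some j) = q j * b' (some j) :=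
    ⟨fun j => c' (some j) / b' (some j), fun j => (div_mul_cancel₀ _ (hb j)).symm⟩
  obtain ⟨A, hA⟩ : ∃ A : τ → k, ∀ j, A j = s * b' (some j) ^ d := ⟨_, fun _ => rfl⟩
  have hA0 : ∀ j, A j ≠ 0 := fun j => by
    rw [hA]
    exact mul_ne_zero hs (pow_ne_zero _ (hb j))
  have hv : ∀ (l : Fin (d + 1)) (j : τ), s * vd d b' c' l (some j) = A j * q j ^ (l : ℕ) := by
    intro l j
    have h1 : b' (some j) ^ d = b' (some j) ^ (d - l) * b' (some j) ^ (l : ℕ) := by
      rw [← pow_add]
      congr 1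
      have := l.2
      omega
    rw [vd, hA, hq, mul_pow, h1]
    ring
  have hqi : Function.Injective q := by
    intro i j hij
    by_contra hne
    refine hnp' (some i) (some j) (fun h => hne (Option.some_injective _ h)) (A i / A j)
      fun l => ?_
    refine mul_left_cancel₀ hs ?_
    rw [hv, hij, mul_left_comm, hv, ← mul_assoc, div_mul_cancel₀ _ (hA0 j)]
  obtain ⟨M, hM⟩ : ∃ M : Fin (d + 1) → Option τ → k, ∀ l, M l = s • vd d b' c' l :=
    ⟨_, fun _ => rfl⟩
  have hMV : sysI E (vd d b c) = sysI E M := by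
    refine sysI_eq _ _ (hV.trans (le_antisymm ?_ ?_))
    · rw [Submodule.span_le]
      rintro _ ⟨l, rfl⟩
      have h1 : vd d b' c' l = s⁻¹ • M l := by
        rw [hM, smul_smul, inv_mul_cancel₀ hs, one_smul]
      rw [h1]
      exact Submodule.smul_mem _ _ (Submodule.subset_span ⟨l, rfl⟩)
    · rw [Submodule.span_le]
      rintro _ ⟨l, rfl⟩
      rw [hM]
      exact Submodule.smul_mem _ _ (Submodule.subset_span ⟨l, rfl⟩)
  have e1 : (fun i => M i none) = fun i : Fin (d + 1) => if (i : ℕ) = d then (-1 : k) else 0 := by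
    funext i
    rw [hM, Pi.smul_apply, smul_eq_mul, vd, hb0]
    by_cases hi : (i : ℕ) = d
    · rw [if_pos hi, hi, Nat.sub_self, pow_zero, one_mul, hs', neg_mul,
        inv_mul_cancel₀ (pow_ne_zero _ hc0)]
    · have h1 : d - i ≠ 0 := by
        have := i.2
        omega
      rw [if_neg hi, zero_pow h1, zero_mul, mul_zero]
  have e2 : (fun i j => M i (some j)) = fun (i : Fin (d + 1)) (j : τ) => A j * q j ^ (i : ℕ) := by
    funext i j
    rw [hM]
    exact hv i j
  obtain ⟨D, _, _, p, w, hS, hft, _⟩ := exs k E hE τ q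
    (fun j => (∏ l ∈ Finset.univ.erase j, (q j - q l))⁻¹ * (A j)⁻¹) n
  have h1 := lagr k E hE τ A q hA0 hqi d n hcard D p w hS
  rw [← e1, ← e2] at h1
  have h2 := cone k E hE (Fin (d + 1)) τ M D (aeval w) h1
  have hL := loc_of_bnd hP.toBnd
  rw [hMV]
  exact st_of hL h2 (p_laurent hL (p_S hP exs hE q n _ D p w hS))

end Pool.Agent.V5helper52.VM
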