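import Pool.Agent.V5helper52.VM.Hom

/-!
# Homogeneous systems of Vandermonde type: the induction
-/

set_option autoImplicit false
set_option maxHeartbeats 400000

open CategoryTheory AlgebraicGeometry MvPolynomial Pool.Agent.Y116.UV Pool.Agent.V5helper52.SF
  Pool.Agent.V5helper52.TR Pool.Agent.V5helper52.FW Pool.Agent.V5helper52.PT Pool.Agent.Z125.UN

namespace Pool.Agent.V5helper52.VM

variable {k : Type} [Field k] {P : Sch k → Prop} (hP : Cls True P)

include hP

/-- smaller systems -/
lemma sub_v {E : ℕ} {σ : Type} [Fintype σ] [DecidableEq σ] {d : ℕ} (b c : σ → k) (T : Finset σ)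
    (h : ∀ b' c' : {j // ¬ j ∈ T} → k, P (aff k (MvPolynomial {j // ¬ j ∈ T} k ⧸
      sysI E (vd d b' c')))) :
    P (aff k (MvPolynomial {j // ¬ j ∈ T} k ⧸
      sysI E fun i (x : {j // ¬ j ∈ T}) => vd d b c i x.1)) :=
  h (fun x => b x.1) (fun x => c x.1)

/-- **Homogeneous systems of Vandermonde type.** -/
theorem p_homv (exs : S_EXS) (lagr : S_LAGR) (cone : S_CONE) (merge : S_MERGE) {E : ℕ} (hE : 0 < E)
    (d : ℕ) (N : ℕ) : ∀ (σ : Type) [Fintype σ], Fintype.card σ = N → ∀ b c : σ → k,
    P (aff k (MvPolynomial σ k ⧸ sysI E (vd d b c))) := by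
  have hL := loc_of_bnd hP.toBnd
  induction N using Nat.strong_induction_on with
  | _ N ih =>
    intro σ _ hσ b c
    classical
    by_cases h1 : Fintype.card σ ≤ 1
    · exact p_le_one hP h1 _
    by_cases hp : ∃ i j : σ, i ≠ j ∧ ∃ lam : k, ∀ l, vd d b c l i = lam * vd d b c l j
    · obtain ⟨i, j, hij, lam, hlam⟩ := hp
      let τ := {x : σ // x ≠ i ∧ x ≠ j}
      let e : Option (Option τ) ≃ σ :=
        { toFun := fun x => x.elim i fun x => x.elim j fun x => x.1
          invFun := fun x => if hi : x = i then none else
            if hj : x = j then some none else some (some ⟨x, hi, hj⟩)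
          left_inv := fun x => by
            rcases x with _ | _ | ⟨x, hi, hj⟩
            · simp
            · simp [hij.symm]
            · simp [hi, hj]
          right_inv := fun x => by
            by_cases hi : x = i
            · simp [hi]
            · by_cases hj : x = j
              · simp [hj, hij.symm]
              · simp [hi, hj] }
      have hτ : Fintype.card τ + 2 = Fintype.card σ := by
        rw [← Fintype.card_congr e, Fintype.card_option, Fintype.card_option]
      refine p_equiv e _ hL (merge k P hP E hE (Fin (d + 1)) τ _ lam hlam ?_ ?_)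
      · exact ih _ (by rw [Fintype.card_option]; omega) (Option τ) rfl
          (fun x => b (e (some x))) (fun x => c (e (some x)))
      · exact ih _ (by omega) τ rfl (fun x => b (e (some (some x)))) (fun x => c (e (some (some x))))
    · push Not at hp
      have h2 : ∀ j : σ, ¬ (b j = 0 ∧ c j = 0) := by
        rintro j ⟨hb, hc⟩
        obtain ⟨l, hl⟩ := Fintype.exists_ne_of_one_lt_card (by omega : 1 < Fintype.card σ) j
        obtain ⟨i, hi⟩ := hp j l hl.symm (0 ^ d)
        exact hi (vd_prop b c (by rw [hb, zero_mul]) (by rw [hc, zero_mul]) i)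
      refine p_from_open hE _ hL (fun T hT => ?_) ?_
      · refine sub_v hP b c T (ih _ ?_ _ rfl)
        rw [← hσ]
        obtain ⟨x, hx⟩ := hT
        exact Fintype.card_subtype_lt (x := x) (by simpa using hx)
      · obtain ⟨x0⟩ : Nonempty σ := Fintype.card_pos_iff.mp (by omega)
        by_cases h3 : Fintype.card σ ≤ d + 1
        · refine small_v hP b c x0 (fun l hl lam h => ?_) (h2 x0) h3
          obtain ⟨i, hi⟩ := hp l x0 hl lam
          exact hi (h i)
        · obtain ⟨n, hn⟩ : ∃ n, Fintype.card σ = n + (d + 2) := ⟨Fintype.card σ - (d + 2), by omega⟩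
          -- the generic case
          let τ := {x : σ // x ≠ x0}
          let e : Option τ ≃ σ := Equiv.optionSubtypeNe x0
          have hτ : Fintype.card τ = n + (d + 1) := by
            have h4 := Fintype.card_congr e
            rw [Fintype.card_option] at h4
            omega
          have h4 : St P (sysI E (vd d (fun x => b (e x)) (fun x => c (e x)))) (∏ j, X j) := by
            refine gen_v hP exs lagr cone hE _ _ (fun i j hij lam h5 => ?_) (h2 _) hτ
            obtain ⟨l, hl⟩ := hp (e i) (e j) (fun h6 => hij (e.injective h6)) lam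
            exact hl (h5 l)
          -- transport
          have h5 : IsQ (sysI E (vd d b c)) (∏ j, X j)
              ((qmap k (sysI E (vd d (fun x => b (e x)) (fun x => c (e x)))) (∏ j, X j)).comp
                (renameEquiv k e.symm : MvPolynomial σ k →ₐ[k] MvPolynomial (Option τ) k)) := by
            refine isQ_equiv (isQ_qmap _ _) (renameEquiv k e.symm) ?_ ?_
            · rw [sysI_equiv e.symm (vd d (fun x => b (e x)) (fun x => c (e x)))]
              have h6 : (fun (i : Fin (d + 1)) (x : σ) =>
                  vd d (fun x => b (e x)) (fun x => c (e x)) i (e.symm x)) = vd d b c := by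
                funext i x
                rw [vd, vd, e.apply_symm_apply]
              rw [h6]
            · rw [renameEquiv_apply, map_prod, ← e.symm.prod_comp]
              exact Finset.prod_congr rfl fun x _ => rename_X _ _
          exact st_of hL h5 h4

end Pool.Agent.V5helper52.VM
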