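import Pool.Agent.V5helper52.PT.Gen

/-!
# Project VM: systems of Vandermonde type, and blocks

`sysI E M = (Ferm E σ (M i), i)`, `sysC E c M = (C (c i) + Ferm E σ (M i), i)`,
`Ferm E σ c = ∑_j C (c j) * X j ^ E` (FW/Ferm.lean, PT/Stm.lean). `Cls True P`: SF/Cls.lean.
Conventions: file `Pool/Agent/V5<seat>/VM/<JOB>.lean`, `theorem t_<JOB> : Pool.Agent.V5helper52.VM.S_<JOB>`
(used statements as hypotheses `(h : S_BLK)`).
-/

set_option autoImplicit false

open CategoryTheory AlgebraicGeometry MvPolynomial Pool.Agent.Y116.UV Pool.Agent.V5helper52.SF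
  Pool.Agent.V5helper52.TR Pool.Agent.V5helper52.FW Pool.Agent.V5helper52.PT

namespace Pool.Agent.V5helper52.VM

/-- JOB LAGR (150 lines, adaptation of Pool/Agent/V5helper65/PT/LAG.lean, which is the case `r = 1`).
Proof. `γ_j = ∏_{l ≠ j} (q_j - q_l)⁻¹`. `zero`: `∑_j A_j q_j ^ i w_j ^ E = ∑_j γ_j q_j ^ i P(q_j)` is the coefficient
of `X ^ (|σ| - 1)` in `X ^ i * P`, `i ≤ r`, by the key identity of LAG. `unit`, `ext`: as in LAG. `lift`: for
`u : σ → F` let `a_j = A_j u_j ^ E`, `L_i = ∑_j C (a_j q_j ^ i) ∏_{l ≠ j} (X - C q_l)`, `s_i = ∑_j a_j q_j ^ i`. Then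
`L_(i+1) = X * L_i - C s_i * ∏_l (X - C q_l)` (one line each summand), so `L_i = X ^ i * L_0` for `i ≤ r`, as
`s_i = 0` for `i < r`; `L_r` has degree `< |σ|` and its coefficient at `|σ| - 1` is `s_r = 1`. So `P' = L_0` is
monic of degree `|σ| - 1 - r = n` (`IsMon n`), and `P'(q_j) = a_j ∏_{l ≠ j} (q_j - q_l)`. -/
def S_LAGR : Prop := ∀ (k : Type) [Field k] (E : ℕ) (_ : 0 < E) (σ : Type) [Fintype σ] [DecidableEq σ]
  (A q : σ → k) (_ : ∀ j, A j ≠ 0) (_ : Function.Injective q) (r n : ℕ)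
  (_ : Fintype.card σ = n + (r + 1))
  (D : Type) [CommRing D] [Algebra k D] (P : Polynomial D) (w : σ → D)
  (_ : IsS E q (fun j => (∏ l ∈ Finset.univ.erase j, (q j - q l))⁻¹ * (A j)⁻¹) n P w),
  IsQ (sysC E (fun i : Fin (r + 1) => if (i : ℕ) = r then (-1 : k) else 0)
    (fun i j => A j * q j ^ (i : ℕ))) (∏ j, X j) (aeval w : MvPolynomial σ k →ₐ[k] D)

/-- JOB BLK (100 lines). Systems whose rows have supports on one side are products.
Proof. `hP.prod` (SF/Cls.lean) gives `P (aff k (A₁ ⊗[k] A₂))`, `A₁ = MvPolynomial τ₁ k ⧸ sysI E (M i ∘ inl)`, `A₂` for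
`inr`. Then `iso_alg hP.toUni` with the isomorphism from
`MvPolynomial (τ₁ ⊕ τ₂) k ⧸ sysI E M ≃ₐ[k] A₁ ⊗[k] A₂`:
`AlgEquiv.ofAlgHom f g _ _`, `f = Ideal.Quotient.liftₐ _ (aeval (Sum.elim (fun j => mk (X j) ⊗ₜ 1) (fun j => 1 ⊗ₜ mk (X j))))`
(`Ferm E _ (M i)` goes to `Ferm (M i ∘ inl) ⊗ 1 + 1 ⊗ Ferm (M i ∘ inr) = 0`),
`g = Algebra.TensorProduct.lift (Ideal.Quotient.liftₐ _ (aeval fun j => mk (X (Sum.inl j))))
(Ideal.Quotient.liftₐ _ (aeval fun j => mk (X (Sum.inr j))))` (the image of `Ferm (M i ∘ inl)` is `0` or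
equal to `Ferm (M i)`). -/
def S_BLK : Prop := ∀ (k : Type) [Field k] (P : Sch k → Prop) (_ : Cls True P) (E : ℕ) (_ : 0 < E)
  (κ τ₁ τ₂ : Type) [Fintype τ₁] [Fintype τ₂] (M : κ → τ₁ ⊕ τ₂ → k)
  (_ : ∀ i, (∀ j, M i (Sum.inl j) = 0) ∨ ∀ j, M i (Sum.inr j) = 0)
  (_ : P (aff k (MvPolynomial τ₁ k ⧸ sysI E fun i j => M i (Sum.inl j))))
  (_ : P (aff k (MvPolynomial τ₂ k ⧸ sysI E fun i j => M i (Sum.inr j)))),
  P (aff k (MvPolynomial (τ₁ ⊕ τ₂) k ⧸ sysI E M))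

/-- JOB DGB (80 lines, uses S_BLK). Block diagonal systems.
Proof. Strong induction on `Fintype.card τ`. If it is `0`: `p_le_one` (PT/Gen.lean). Otherwise take `j₀`,
`β = p j₀`, and the equivalence `Equiv.sumCompl (fun j => p j = β) : {j // p j = β} ⊕ {j // ¬ p j = β} ≃ τ`
with `p_equiv` (PT/Hom.lean, `loc_of_bnd hP.toBnd`); `S_BLK`; the induction hypothesis for
`{j // ¬ p j = β}` with `p` restricted: for `β' = β` the type is empty (`p_le_one`), for the others use `p_equiv`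
with the obvious equivalence. -/
def S_DGB : Prop := ∀ (k : Type) [Field k] (P : Sch k → Prop) (_ : Cls True P) (E : ℕ) (_ : 0 < E)
  (κ τ : Type) [Fintype τ] (M : κ → τ → k) (p : τ → ℕ)
  (_ : ∀ i j j', M i j ≠ 0 → M i j' ≠ 0 → p j = p j')
  (_ : ∀ β, P (aff k (MvPolynomial {j // p j = β} k ⧸ sysI E fun i j => M i j.1))),
  P (aff k (MvPolynomial τ k ⧸ sysI E M))

/-- JOB THC (60 lines). The coefficients of the restriction to a stratum: `th k T` (FW/Tor.lean,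
`th_monomial` in FW/Few.lean). Proof: `f.as_sum`, `map_sum`, `th_monomial`; the coefficient at
`fun t => m t` of the image of the monomial `s` is `coeff s f` if `s = m` and `0` otherwise (if `s` is
supported in `T` and has the same values on `T` as `m`, then `s = m`). -/
def S_THC : Prop := ∀ (k : Type) [Field k] (σ : Type) [Fintype σ] [DecidableEq σ] (T : Finset σ)
  (f : MvPolynomial σ k) (m : σ →₀ ℕ) (_ : ∀ i, m i ≠ 0 → i ∈ T),
  (th k T f).coeff (fun t : T => (m t : ℤ)) = coeff m f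

end Pool.Agent.V5helper52.VM
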