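import Pool.Agent.V5helper52.VM.Ind
import Pool.Agent.V5helper52.PT.Pair
import Pool.Agent.V5helper11.VM.THC

/-!
# Systems in the torus
-/

set_option autoImplicit false
set_option maxHeartbeats 400000

open CategoryTheory AlgebraicGeometry MvPolynomial Pool.Agent.Y116.UV Pool.Agent.V5helper52.SF
  Pool.Agent.V5helper52.TR Pool.Agent.V5helper52.FW Pool.Agent.V5helper52.PT Pool.Agent.Z125.UN

namespace Pool.Agent.V5helper52.VM

variable {k : Type} [Field k]

/-- Matrices for which all systems of Fermat equations with these columns have the property `P`. -/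
def Good (P : Sch k → Prop) {κ C : Type} (M : κ → C → k) : Prop :=
  ∀ (E : ℕ) (_ : 0 < E) (τ : Type) [Fintype τ] (ι : τ → C),
    P (aff k (MvPolynomial τ k ⧸ sysI E fun i x => M i (ι x)))

variable {P : Sch k → Prop} (hP : Cls True P)

include hP

/-- systems in the torus -/
theorem p_tgen {σ : Type} [Fintype σ] [DecidableEq σ] {κ : Type} {E : ℕ} (hE : 0 < E)
    (M : κ → Option σ → k)
    (h : ∀ T : Finset (Option σ), P (aff k (MvPolynomial {j // ¬ j ∈ T} k ⧸
      sysI E fun i (x : {j // ¬ j ∈ T}) => M i x.1))) :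
    P (aff k (AddMonoidAlgebra k (σ → ℤ) ⧸ Ideal.span (Set.range fun i =>
      AddMonoidAlgebra.single 0 (M i none) +
        ∑ j, AddMonoidAlgebra.single (E • Pi.single j 1 : σ → ℤ) (M i (some j))))) := by
  have hL := loc_of_bnd hP.toBnd
  let I : Ideal (MvPolynomial σ k) := sysC E (fun i => M i none) fun i j => M i (some j)
  have h1 := isQ_tor I
  have h2 := Pool.Agent.V5helper6.PT.t_CONE k E hE κ σ M _ _ h1
  have h3 : St P (sysI E M) (∏ j, X j) := st_open_stratum hE M hL h
  have hft : Algebra.FiniteType k (AddMonoidAlgebra k (σ → ℤ) ⧸ I.map (tt k σ)) := inferInstance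
  have h4 := hP.torus _ (st_to hL h2 h3)
  have h5 : I.map (tt k σ) = Ideal.span (Set.range fun i =>
      AddMonoidAlgebra.single 0 (M i none) +
        ∑ j, AddMonoidAlgebra.single (E • Pi.single j 1 : σ → ℤ) (M i (some j))) := by
    change (sysC E (fun i => M i none) fun i j => M i (some j)).map (tt k σ) = _
    rw [sysC, Ideal.map_span, ← Set.range_comp]
    congr 2
    funext i
    change tt k σ (C (M i none) + Ferm E σ fun j => M i (some j)) = _
    rw [map_add, tt_C, tt_ferm]
  rw [← h5]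
  exact h4

/-- Laurent polynomials with affinely independent exponents -/
theorem lat_gen {T : Type} [Fintype T] [DecidableEq T] {κ : Type}
    (g : κ → AddMonoidAlgebra k (T → ℤ)) (S : Finset (T → ℤ))
    (hS : ∀ l, (g l).coeff.support ⊆ S) (hg : AffineIndependent ℚ fun m : S => qv m.1)
    (M : κ → (T → ℤ) → k) (hM : ∀ l, ∀ m ∈ S, (g l).coeff m = M l m) (hgood : Good P M) :
    P (aff k (AddMonoidAlgebra k (T → ℤ) ⧸ Ideal.span (Set.range g))) := by
  classical
  rcases S.eq_empty_or_nonempty with rfl | ⟨m0, hm0⟩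
  · obtain ⟨E, j, hE, hj1, hj3⟩ := Pool.Agent.V5helper23.PT.t_RED k P hP T 0 (fun i => i.elim0)
      (linearIndependent_empty_type)
    refine hj3 κ g (fun l m hm => ?_) (hP.curve _ ((ringKrullDim_quotient_le _).trans
      ((dim_tor 0).trans ?_)))
    · exact absurd (hS l hm) (Finset.notMem_empty m)
    · exact_mod_cast zero_le_one
  rw [affineIndependent_iff_linearIndependent_vsub ℚ _ ⟨m0, hm0⟩] at hg
  let κ' := {x : S // x ≠ ⟨m0, hm0⟩}
  obtain ⟨ρ, ⟨e⟩⟩ : ∃ ρ, Nonempty (Fin ρ ≃ κ') := ⟨_, ⟨(Fintype.equivFin κ').symm⟩⟩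
  let v : Fin ρ → (T → ℤ) := fun i => (e i).1.1 - m0
  have hv : LinearIndependent ℚ fun i : Fin ρ => qv (v i) := by
    have h1 := hg.comp e e.injective
    have h2 : (fun i : Fin ρ => qv (v i)) = (fun i : κ' => qv i.1.1 -ᵥ qv m0) ∘ e := by
      funext i
      exact qv_sub _ _
    rw [h2]
    exact h1
  obtain ⟨E, j, hE, hj1, hj3⟩ := Pool.Agent.V5helper23.PT.t_RED k P hP T ρ v hv
  have hsum : ∀ l, AddMonoidAlgebra.single (-m0) 1 * g l =
      AddMonoidAlgebra.single 0 ((g l).coeff m0) +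
      ∑ i, AddMonoidAlgebra.single (v i) ((g l).coeff (e i).1.1) := by
    intro l
    have h0 : AddMonoidAlgebra.single (-m0) 1 * g l =
        ∑ m ∈ S, AddMonoidAlgebra.single (m - m0) ((g l).coeff m) := by
      rw [shift_eq]
      refine Finset.sum_subset (hS l) fun m _ hm => ?_
      rw [Finsupp.notMem_support_iff.mp hm, AddMonoidAlgebra.single_zero]
    rw [h0, ← Finset.add_sum_erase _ _ hm0, sub_self]
    congr 1
    symm
    refine Finset.sum_bij (fun i _ => (e i).1.1) ?_ ?_ ?_ ?_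
    · intro i _
      refine Finset.mem_erase.mpr ⟨fun h => (e i).2 (Subtype.ext h), (e i).1.2⟩
    · intro i _ i' _ h
      exact e.injective (Subtype.ext (Subtype.ext h))
    · intro m hm
      obtain ⟨h1, h2⟩ := Finset.mem_erase.mp hm
      refine ⟨e.symm ⟨⟨m, h2⟩, fun h => h1 (congrArg Subtype.val h)⟩, Finset.mem_univ _, ?_⟩
      rw [e.apply_symm_apply]
    · intro i _
      rfl
  rw [← shift_fam g m0]
  refine hj3 κ _ (fun l m hm => ?_) ?_
  · obtain ⟨m', hm', rfl⟩ := shift_supp (g l) m0 m hm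
    by_cases h : m' = m0
    · rw [h, sub_self]
      have h0 : qv (0 : T → ℤ) = 0 := by
        funext t
        exact Int.cast_zero
      rw [h0]
      exact zero_mem _
    · refine Submodule.subset_span ⟨e.symm ⟨⟨m', hS l hm'⟩, fun h' => h (congrArg Subtype.val h')⟩,
        ?_⟩
      change qv ((e (e.symm _)).1.1 - m0) = _
      rw [e.apply_symm_apply]
  · let ι : Option (Fin ρ) → (T → ℤ) := fun x => x.elim m0 fun i => (e i).1.1
    let M' : κ → Option (Fin ρ) → k := fun l x => M l (ι x)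
    have h3 := p_tgen hP hE M' fun T' => hgood E hE {j // ¬ j ∈ T'} fun x => ι x.1
    have h4 : (fun l => md k j (AddMonoidAlgebra.single (-m0) 1 * g l)) = fun l =>
        AddMonoidAlgebra.single 0 (M' l none) +
          ∑ i, AddMonoidAlgebra.single (E • Pi.single i 1 : Fin ρ → ℤ) (M' l (some i)) := by
      funext l
      rw [hsum, map_add, map_sum, md_single, map_zero]
      congr 1
      · congr 1
        exact hM l m0 hm0
      · refine Finset.sum_congr rfl fun i _ => ?_
        rw [md_single, hj1]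
        congr 1
        exact hM l _ (e i).1.2
    rw [h4]
    exact h3

/-- **Systems with independent exponents over a field.** -/
theorem p_gen {σ : Type} [Fintype σ] [DecidableEq σ] {κ : Type} (S : Finset (σ →₀ ℕ))
    (F : κ → MvPolynomial σ k) (M : κ → (σ →₀ ℕ) → k) (hF : ∀ l, F l = ∑ m ∈ S, monomial m (M l m))
    (hf : AffineIndependent ℚ (fun (m : S) (i : σ) => (m.1 i : ℚ))) (hgood : Good P M) :
    P (aff k (MvPolynomial σ k ⧸ Ideal.span (Set.range F))) := by
  classical
  have hco : ∀ l, ∀ m ∈ S, coeff m (F l) = M l m := by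
    intro l m hm
    rw [hF, coeff_sum, Finset.sum_eq_single m]
    · rw [coeff_monomial, if_pos rfl]
    · intro m' _ hne
      rw [coeff_monomial, if_neg hne]
    · exact fun h => absurd hm h
  have hsupp : ∀ l, (F l).support ⊆ S := by
    intro l m hm
    by_contra h
    refine (mem_support_iff.mp hm) ?_
    rw [hF, coeff_sum]
    refine Finset.sum_eq_zero fun m' hm' => ?_
    rw [coeff_monomial, if_neg]
    rintro rfl
    exact h hm'
  refine p_strata (loc_of_bnd hP.toBnd) _ fun T => ?_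
  rw [map_fam]
  let res : (σ →₀ ℕ) → (T → ℤ) := fun m t => (m t : ℤ)
  let ext : (T → ℤ) → (σ →₀ ℕ) := fun x =>
    Finsupp.equivFunOnFinite.symm fun i => if h : i ∈ T then (x ⟨i, h⟩).toNat else 0
  have hext : ∀ m : σ →₀ ℕ, (∀ i, m i ≠ 0 → i ∈ T) → ext (res m) = m := by
    intro m hm
    ext i
    change (if h : i ∈ T then ((m i : ℕ) : ℤ).toNat else 0) = m i
    by_cases h : i ∈ T
    · rw [dif_pos h, Int.toNat_natCast]
    · rw [dif_neg h]
      by_contra h2
      exact h (hm i (Ne.symm h2))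
  let ST : Finset (T → ℤ) := (S.filter fun m => ∀ i, m i ≠ 0 → i ∈ T).image res
  have hST : ∀ x ∈ ST, ext x ∈ S ∧ (∀ i, ext x i ≠ 0 → i ∈ T) ∧ res (ext x) = x := by
    intro x hx
    obtain ⟨m, hm, rfl⟩ := Finset.mem_image.mp hx
    obtain ⟨h1, h2⟩ := Finset.mem_filter.mp hm
    rw [hext m h2]
    exact ⟨h1, h2, rfl⟩
  refine lat_gen hP (fun l => th k T (F l)) ST (fun l x hx => ?_) ?_ (fun l x => M l (ext x))
    (fun l x hx => ?_) (fun E hE τ _ ι => hgood E hE τ fun x => ext (ι x))
  · obtain ⟨m, hm, h1, h2⟩ := th_supp T (F l) x hx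
    refine Finset.mem_image.mpr ⟨m, Finset.mem_filter.mpr ⟨hsupp l hm, h1⟩, ?_⟩
    funext t
    exact (h2 t).symm
  · let u : ST ↪ S := ⟨fun x => ⟨ext x.1, (hST x.1 x.2).1⟩, fun x y hxy => by
      have h1 : ext x.1 = ext y.1 := congrArg Subtype.val hxy
      apply Subtype.ext
      rw [← (hST x.1 x.2).2.2, ← (hST y.1 y.2).2.2, h1]⟩
    have h1 := hf.comp_embedding u
    refine AffineIndependent.of_comp (ez T).toAffineMap ?_
    have h2 : ((ez T).toAffineMap ∘ fun m : ST => qv m.1) =
        ((fun (m : S) (i : σ) => (m.1 i : ℚ)) ∘ u) := by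
      funext x
      funext i
      change (if h : i ∈ T then ((x.1 ⟨i, h⟩ : ℤ) : ℚ) else 0) = ((ext x.1 i : ℕ) : ℚ)
      obtain ⟨h1, h2, h3⟩ := hST x.1 x.2
      by_cases h : i ∈ T
      · rw [dif_pos h]
        have h4 : x.1 ⟨i, h⟩ = ((ext x.1 i : ℕ) : ℤ) := (congrFun h3 ⟨i, h⟩).symm
        rw [h4]
        norm_cast
      · rw [dif_neg h]
        by_contra h5
        exact h (h2 i fun h6 => h5 (by rw [h6]; rfl))
    rw [h2]
    exact h1
  · obtain ⟨h1, h2, h3⟩ := hST x hx
    have h4 := Pool.Agent.V5helper11.VM.t_THC k σ T (F l) (ext x) h2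
    change (th k T (F l)).coeff (res (ext x)) = _ at h4
    rw [h3, hco l _ h1] at h4
    exact h4

end Pool.Agent.V5helper52.VM
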