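import Pool.Agent.V5helper52.VM.Stm

/-!
# Systems of Vandermonde type: the space of rows
-/

set_option autoImplicit false
set_option maxHeartbeats 400000

open CategoryTheory AlgebraicGeometry MvPolynomial Pool.Agent.Y116.UV Pool.Agent.V5helper52.SF
  Pool.Agent.V5helper52.TR Pool.Agent.V5helper52.FW Pool.Agent.V5helper52.PT

namespace Pool.Agent.V5helper52.VM

variable {k : Type} [Field k]

section rows

variable {E : ℕ} {σ : Type} [Fintype σ]

lemma ferm_mem {κ : Type} (M : κ → σ → k) {c : σ → k} (hc : c ∈ Submodule.span k (Set.range M)) :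
    Ferm E σ c ∈ sysI E M := by
  induction hc using Submodule.span_induction with
  | mem x hx =>
    obtain ⟨i, rfl⟩ := hx
    exact Ideal.subset_span ⟨i, rfl⟩
  | zero =>
    have h : Ferm E σ (0 : σ → k) = 0 := by
      rw [Ferm]
      exact Finset.sum_eq_zero fun j _ => by rw [Pi.zero_apply, C_0, zero_mul]
    rw [h]
    exact Ideal.zero_mem _
  | add x y _ _ hx hy =>
    have h : Ferm E σ (x + y) = Ferm E σ x + Ferm E σ y := by
      rw [Ferm, Ferm, Ferm, ← Finset.sum_add_distrib]
      exact Finset.sum_congr rfl fun j _ => by rw [Pi.add_apply, C_add, add_mul]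
    rw [h]
    exact Ideal.add_mem _ hx hy
  | smul a x _ hx =>
    have h : Ferm E σ (a • x) = C a * Ferm E σ x := by
      rw [Ferm, Ferm, Finset.mul_sum]
      exact Finset.sum_congr rfl fun j _ => by rw [Pi.smul_apply, smul_eq_mul, C_mul, mul_assoc]
    rw [h]
    exact Ideal.mul_mem_left _ _ hx

lemma sysI_le {κ κ' : Type} (M : κ → σ → k) (M' : κ' → σ → k)
    (h : ∀ i, M' i ∈ Submodule.span k (Set.range M)) : sysI E M' ≤ sysI E M := by
  rw [sysI, Ideal.span_le]
  rintro _ ⟨i, rfl⟩
  exact ferm_mem M (h i)

lemma sysI_eq {κ κ' : Type} (M : κ → σ → k) (M' : κ' → σ → k)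
    (h : Submodule.span k (Set.range M) = Submodule.span k (Set.range M')) :
    sysI E M = sysI E M' :=
  le_antisymm (sysI_le M' M fun i => by rw [← h]; exact Submodule.subset_span ⟨i, rfl⟩)
    (sysI_le M M' fun i => by rw [h]; exact Submodule.subset_span ⟨i, rfl⟩)

end rows

section van

variable {σ : Type}

/-- the matrix of Vandermonde type -/
def vd (d : ℕ) (b c : σ → k) (i : Fin (d + 1)) (j : σ) : k := b j ^ (d - i) * c j ^ (i : ℕ)

lemma vd_span (d : ℕ) (b c : σ → k) :
    Submodule.span k (Set.range (vd d b c)) = Submodule.span k {b, c} ^ d := by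
  apply le_antisymm
  · rw [Submodule.span_le]
    rintro _ ⟨i, rfl⟩
    have hb : b ∈ Submodule.span k ({b, c} : Set (σ → k)) := Submodule.subset_span (by simp)
    have hc : c ∈ Submodule.span k ({b, c} : Set (σ → k)) := Submodule.subset_span (by simp)
    have h1 : vd d b c i = b ^ (d - i) * c ^ (i : ℕ) := rfl
    have h2 : d = (d - i) + i := by
      have := i.2
      omega
    rw [h1]
    have h3 : Submodule.span k ({b, c} : Set (σ → k)) ^ d =
        Submodule.span k {b, c} ^ (d - i) * Submodule.span k {b, c} ^ (i : ℕ) := by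
      rw [← pow_add, ← h2]
    rw [h3]
    exact Submodule.mul_mem_mul (Submodule.pow_mem_pow _ hb _) (Submodule.pow_mem_pow _ hc _)
  · induction d with
    | zero =>
      rw [pow_zero, Submodule.one_eq_span, Submodule.span_le]
      rintro _ rfl
      refine Submodule.subset_span ⟨0, ?_⟩
      funext j
      simp [vd]
    | succ d ih =>
      rw [pow_succ]
      refine (mul_le_mul' ih le_rfl).trans ?_
      rw [Submodule.span_mul_span, Submodule.span_le]
      rintro _ ⟨_, ⟨i, rfl⟩, y, hy, rfl⟩
      rcases hy with rfl | hy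
      · refine Submodule.subset_span ⟨⟨i.1, by have := i.2; omega⟩, ?_⟩
        funext j
        change y j ^ (d + 1 - i.1) * c j ^ i.1 = y j ^ (d - i.1) * c j ^ i.1 * y j
        have h1 : d + 1 - i.1 = (d - i.1) + 1 := by
          have := i.2
          omega
        rw [h1, pow_succ]
        ring
      · rw [Set.mem_singleton_iff] at hy
        subst hy
        refine Submodule.subset_span ⟨⟨i.1 + 1, by have := i.2; omega⟩, ?_⟩
        funext j
        change b j ^ (d + 1 - (i.1 + 1)) * y j ^ (i.1 + 1) = b j ^ (d - i.1) * y j ^ i.1 * y j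
        have h1 : d + 1 - (i.1 + 1) = d - i.1 := by omega
        rw [h1, pow_succ]
        ring

/-- proportional columns -/
def Pr (V : Submodule k (σ → k)) (i j : σ) : Prop := ∃ lam : k, ∀ f ∈ V, f i = lam * f j

lemma pr_iff {κ : Type} (M : κ → σ → k) (i j : σ) (lam : k) :
    (∀ l, M l i = lam * M l j) ↔ ∀ f ∈ Submodule.span k (Set.range M), f i = lam * f j := by
  constructor
  · intro h f hf
    induction hf using Submodule.span_induction with
    | mem x hx =>
      obtain ⟨l, rfl⟩ := hx
      exact h l
    | zero => simp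
    | add x y _ _ hx hy => rw [Pi.add_apply, Pi.add_apply, hx, hy, mul_add]
    | smul a x _ hx =>
      rw [Pi.smul_apply, Pi.smul_apply, smul_eq_mul, smul_eq_mul, hx]
      ring
  · intro h l
    exact h _ (Submodule.subset_span ⟨l, rfl⟩)

/-- normal form at a point -/
lemma exists_bc (b c : σ → k) (o : σ) (h : ¬ (b o = 0 ∧ c o = 0)) : ∃ b' c' : σ → k,
    Submodule.span k ({b', c'} : Set (σ → k)) = Submodule.span k {b, c} ∧ b' o = 0 ∧ c' o ≠ 0 := by
  by_cases hb : b o = 0
  · exact ⟨b, c, rfl, hb, fun hc => h ⟨hb, hc⟩⟩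
  · refine ⟨c - (c o / b o) • b, b, ?_, ?_, hb⟩
    · apply le_antisymm
      · rw [Submodule.span_le]
        have h1 : b ∈ Submodule.span k ({b, c} : Set (σ → k)) := Submodule.subset_span (by simp)
        have h2 : c ∈ Submodule.span k ({b, c} : Set (σ → k)) := Submodule.subset_span (by simp)
        rintro x (rfl | hx)
        · exact Submodule.sub_mem _ h2 (Submodule.smul_mem _ _ h1)
        · rw [Set.mem_singleton_iff] at hx
          rw [hx]
          exact h1
      · rw [Submodule.span_le]
        have h1 : b ∈ Submodule.span k ({c - (c o / b o) • b, b} : Set (σ → k)) :=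
          Submodule.subset_span (by simp)
        have h2 : c - (c o / b o) • b ∈ Submodule.span k ({c - (c o / b o) • b, b} : Set (σ → k)) :=
          Submodule.subset_span (by simp)
        rintro x (rfl | hx)
        · exact h1
        · rw [Set.mem_singleton_iff] at hx
          have h3 := Submodule.add_mem _ h2 (Submodule.smul_mem _ (c o / b o) h1)
          rw [sub_add_cancel] at h3
          rw [hx]
          exact h3
    · rw [Pi.sub_apply, Pi.smul_apply, smul_eq_mul, div_mul_cancel₀ _ hb, sub_self]

end van

end Pool.Agent.V5helper52.VM
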